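import Pool.Agent.Helper60.RT.Defs2

/-!
# Project RT, blocks K1, K2: counting arcs
-/

open MeasureTheory Real Set Filter Topology

set_option autoImplicit false

namespace Pool.Agent.Helper60.RT

/-- separated points in an interval -/
theorem sep_card70 {ι : Type*} (T : Finset ι) (g : ι → ℝ) (a L δ : ℝ) (hδ : 0 < δ) (hL : 0 ≤ L)
    (hg : ∀ x ∈ T, a ≤ g x ∧ g x ≤ a + L) (hsep : ∀ x ∈ T, ∀ y ∈ T, x ≠ y → δ ≤ |g x - g y|) :
    (T.card : ℝ) ≤ L / δ + 1 := by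
  classical
  have hinj : Set.InjOn (fun x => ⌊(g x - a) / δ⌋₊) (T : Set ι) := by
    intro x hx y hy hxy
    by_contra hne
    have h1 := hsep x hx y hy hne
    have hx0 : 0 ≤ (g x - a) / δ := div_nonneg (by linarith [(hg x hx).1]) hδ.le
    have hy0 : 0 ≤ (g y - a) / δ := div_nonneg (by linarith [(hg y hy).1]) hδ.le
    have hx1 := Nat.floor_le hx0
    have hx2 := Nat.lt_floor_add_one ((g x - a) / δ)
    have hy1 := Nat.floor_le hy0
    have hy2 := Nat.lt_floor_add_one ((g y - a) / δ)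
    have hxy' : (⌊(g x - a) / δ⌋₊ : ℝ) = (⌊(g y - a) / δ⌋₊ : ℝ) := by
      exact_mod_cast hxy
    rw [hxy'] at hx1 hx2
    have h3 : |(g x - a) / δ - (g y - a) / δ| < 1 := by
      rw [abs_lt]; constructor <;> linarith
    have h4 : (g x - a) / δ - (g y - a) / δ = (g x - g y) / δ := by ring
    rw [h4, abs_div, abs_of_pos hδ, div_lt_one hδ] at h3
    linarith
  have hsub : T.image (fun x => ⌊(g x - a) / δ⌋₊) ⊆ Finset.range (⌊L / δ⌋₊ + 1) := by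
    intro m hm
    obtain ⟨x, hx, rfl⟩ := Finset.mem_image.1 hm
    rw [Finset.mem_range, Nat.lt_succ_iff]
    refine Nat.floor_le_floor ?_
    exact (div_le_div_iff_of_pos_right hδ).2 (by linarith [(hg x hx).2])
  have h1 : T.card ≤ ⌊L / δ⌋₊ + 1 := by
    rw [← Finset.card_image_of_injOn hinj, ← Finset.card_range (⌊L / δ⌋₊ + 1)]
    exact Finset.card_le_card hsub
  have h2 : (T.card : ℝ) ≤ (⌊L / δ⌋₊ : ℝ) + 1 := by exact_mod_cast h1
  linarith [Nat.floor_le (div_nonneg hL hδ.le)]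

/-- the number of arcs with centre near `τ` -/
theorem ctr_card70 {N : ℕ} (hN : 1 ≤ N) (T : Finset ℕ) (τ h : ℝ) (hh : 0 ≤ h)
    (hT : ∀ r ∈ T, |ctr N r - τ| ≤ h) : (T.card : ℝ) ≤ h * N / 6 + 1 := by
  have hN0 : (0 : ℝ) < N := by exact_mod_cast hN
  have h1 := sep_card70 T (fun r => ctr N r) (τ - h) (2 * h) (12 / N) (by positivity) (by positivity)
    (fun r hr => by
      have := abs_le.1 (hT r hr)
      exact ⟨by linarith [this.1], by linarith [this.2]⟩)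
    (fun r hr r' hr' hne => by
      have h2 : ctr N r - ctr N r' = 12 / N * ((r : ℝ) - r') := by
        unfold ctr; field_simp; ring
      have h3 : (1 : ℝ) ≤ |(r : ℝ) - r'| := by
        have h4 : (1 : ℤ) ≤ |(r : ℤ) - r'| := by
          rw [← Int.cast_one (R := ℤ)]
          exact Int.one_le_abs (sub_ne_zero.2 (by exact_mod_cast hne))
        have h5 : ((1 : ℤ) : ℝ) ≤ ((|(r : ℤ) - r'| : ℤ) : ℝ) := by exact_mod_cast h4
        rw [Int.cast_abs] at h5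
        push_cast at h5
        exact h5
      rw [h2, abs_mul, abs_of_pos (by positivity : (0 : ℝ) < 12 / N)]
      nlinarith [show (0 : ℝ) < 12 / N by positivity])
  have h2 : 2 * h / (12 / (N : ℝ)) = h * N / 6 := by field_simp; ring
  linarith [h2]

theorem pr_inj70 {n n' : ℤ × ℤ} (hn : Pr n) (hn' : Pr n') (h : n.2 * n'.1 = n'.2 * n.1) : n = n' := by
  obtain ⟨hc, h0⟩ := hn
  obtain ⟨hc', h0'⟩ := hn'
  have h1 : n.1 ∣ n'.1 := by
    refine hc.dvd_of_dvd_mul_left ?_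
    rw [h]
    exact dvd_mul_left _ _
  have h2 : n'.1 ∣ n.1 := by
    refine hc'.dvd_of_dvd_mul_left ?_
    rw [← h]
    exact dvd_mul_left _ _
  have h3 : n.1 = n'.1 := Int.dvd_antisymm h0.le h0'.le h1 h2
  refine Prod.ext h3 ?_
  rw [h3] at h
  exact mul_right_cancel₀ h0'.ne' h

/-- the number of primitive vectors of height at most `V` with slope near `τ` -/
theorem pr_card70 (T : Finset (ℤ × ℤ)) (τ h V : ℝ) (hh : 0 ≤ h) (hV : 0 < V)
    (hT : ∀ n ∈ T, Pr n ∧ (n.1 : ℝ) ≤ V ∧ |sp n - τ| ≤ h) : (T.card : ℝ) ≤ 2 * h * V ^ 2 + 1 := by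
  have h1 := sep_card70 T (fun n => sp n) (τ - h) (2 * h) (1 / V ^ 2) (by positivity) (by positivity)
    (fun n hn => by
      have := abs_le.1 (hT n hn).2.2
      exact ⟨by linarith [this.1], by linarith [this.2]⟩)
    (fun n hn n' hn' hne => by
      obtain ⟨hp, hv, -⟩ := hT n hn
      obtain ⟨hp', hv', -⟩ := hT n' hn'
      have a1 : (0 : ℝ) < n.1 := by exact_mod_cast hp.2
      have a2 : (0 : ℝ) < n'.1 := by exact_mod_cast hp'.2
      have h2 : sp n - sp n' = ((n.2 * n'.1 - n'.2 * n.1 : ℤ) : ℝ) / (n.1 * n'.1) := by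
        unfold sp; push_cast; field_simp
      have h3 : (1 : ℝ) ≤ |((n.2 * n'.1 - n'.2 * n.1 : ℤ) : ℝ)| := by
        have h4 : (1 : ℤ) ≤ |n.2 * n'.1 - n'.2 * n.1| :=
          Int.one_le_abs (sub_ne_zero.2 fun h => hne (pr_inj70 hp hp' h))
        have h5 : ((1 : ℤ) : ℝ) ≤ ((|n.2 * n'.1 - n'.2 * n.1| : ℤ) : ℝ) := by exact_mod_cast h4
        rwa [Int.cast_abs, Int.cast_one] at h5
      rw [h2, abs_div, abs_of_pos (mul_pos a1 a2)]
      refine div_le_div₀ (by positivity) h3 (mul_pos a1 a2) ?_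
      rw [sq]
      exact mul_le_mul hv hv' a2.le hV.le)
  have h2 : 2 * h / (1 / V ^ 2) = 2 * h * V ^ 2 := by field_simp
  linarith [h2]

/-- the product bound: at most `b` arcs for every vector -/
theorem fib_card70 (R : Finset ℕ) (φ : ℕ → ℤ × ℤ) (b c : ℝ) (hb : 0 ≤ b)
    (h1 : ∀ n ∈ R.image φ, ((R.filter (fun r => φ r = n)).card : ℝ) ≤ b)
    (h2 : ((R.image φ).card : ℝ) ≤ c) : (R.card : ℝ) ≤ b * c := by
  classical
  have h3 : (R.card : ℝ) = ∑ n ∈ R.image φ, ((R.filter (fun r => φ r = n)).card : ℝ) := by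
    have h4 := Finset.card_eq_sum_card_image φ R
    rw [h4]
    push_cast
    rfl
  rw [h3]
  calc ∑ n ∈ R.image φ, ((R.filter (fun r => φ r = n)).card : ℝ) ≤ ∑ _n ∈ R.image φ, b :=
        Finset.sum_le_sum h1
    _ = (R.image φ).card * b := by rw [Finset.sum_const, nsmul_eq_mul]
    _ ≤ c * b := mul_le_mul_of_nonneg_right h2 hb
    _ = b * c := mul_comm _ _

open Classical in
/-- K1: the arcs near a vector of height about `A` -/
theorem count_I : ∃ C : ℝ, 1 ≤ C ∧ ∀ (N₁ N₂ r₀ : ℕ) (A : ℝ), 1 ≤ N₁ → N₁ ≤ N₂ → 1 ≤ A →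
    ((((Finset.range N₂).filter (fun r => |ctr N₂ r - ctr N₁ r₀| ≤ 12 / N₁ ∧ ∃ n : ℤ × ℤ, Pr n ∧ A ≤ n.1 ∧ (n.1 : ℝ) ≤ 2 * A ∧ |sp n - ctr N₂ r| ≤ 24 / N₂)).card : ℕ) : ℝ) ≤
      C * (1 + A ^ 2 * (1 / N₁)) := by
  refine ⟨1440, by norm_num, fun N₁ N₂ r₀ A hN₁ hN hA => ?_⟩
  have hN₂ : 1 ≤ N₂ := hN₁.trans hN
  have a1 : (0 : ℝ) < N₁ := by exact_mod_cast hN₁
  have a2 : (0 : ℝ) < N₂ := by exact_mod_cast hN₂
  have a3 : (N₁ : ℝ) ≤ N₂ := by exact_mod_cast hN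
  have a4 : (24 : ℝ) / N₂ ≤ 24 / N₁ := div_le_div_of_nonneg_left (by norm_num) a1 a3
  set R := (Finset.range N₂).filter (fun r => |ctr N₂ r - ctr N₁ r₀| ≤ 12 / N₁ ∧ ∃ n : ℤ × ℤ, Pr n ∧ A ≤ n.1 ∧ (n.1 : ℝ) ≤ 2 * A ∧ |sp n - ctr N₂ r| ≤ 24 / N₂) with hR
  have hex : ∀ r, ∃ n : ℤ × ℤ, r ∈ R → |ctr N₂ r - ctr N₁ r₀| ≤ 12 / N₁ ∧ Pr n ∧ A ≤ n.1 ∧
      (n.1 : ℝ) ≤ 2 * A ∧ |sp n - ctr N₂ r| ≤ 24 / N₂ := by
    intro r
    by_cases hr : r ∈ R
    · obtain ⟨-, h1, n, hn⟩ := Finset.mem_filter.1 hr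
      exact ⟨n, fun _ => ⟨h1, hn⟩⟩
    · exact ⟨0, fun h => absurd h hr⟩
  choose φ hφ using hex
  have h1 : (R.card : ℝ) ≤ 5 * (2 * (36 / N₁) * (2 * A) ^ 2 + 1) := by
    refine fib_card70 R φ 5 _ (by norm_num) ?_ ?_
    · intro n hn
      have h2 := ctr_card70 hN₂ (R.filter (fun r => φ r = n)) (sp n) (24 / N₂) (by positivity)
        (fun r hr => by
          obtain ⟨hr1, hr2⟩ := Finset.mem_filter.1 hr
          have h3 := (hφ r hr1).2.2.2.2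
          rw [hr2] at h3
          rwa [abs_sub_comm])
      have h3 : 24 / (N₂ : ℝ) * N₂ / 6 = 4 := by field_simp; norm_num
      linarith
    · refine pr_card70 _ (ctr N₁ r₀) (36 / N₁) (2 * A) (by positivity) (by positivity) ?_
      intro n hn
      obtain ⟨r, hr, rfl⟩ := Finset.mem_image.1 hn
      obtain ⟨b1, b2, b3, b4, b5⟩ := hφ r hr
      refine ⟨b2, b4, ?_⟩
      have h3 : sp (φ r) - ctr N₁ r₀ = (sp (φ r) - ctr N₂ r) + (ctr N₂ r - ctr N₁ r₀) := by ring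
      rw [h3]
      have h4 : (36 : ℝ) / N₁ = 24 / N₁ + 12 / N₁ := by ring
      rw [h4]
      exact (abs_add_le _ _).trans (add_le_add (b5.trans a4) b1)
  have h2 : 5 * (2 * (36 / (N₁ : ℝ)) * (2 * A) ^ 2 + 1) ≤ 1440 * (1 + A ^ 2 * (1 / N₁)) := by
    have h3 : 5 * (2 * (36 / (N₁ : ℝ)) * (2 * A) ^ 2 + 1) = 1440 * (A ^ 2 * (1 / N₁)) + 5 := by
      ring
    rw [h3]
    linarith
  exact h1.trans h2

open Classical in
/-- K2: the arcs of level `Q` -/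
theorem count_II : ∃ C : ℝ, 1 ≤ C ∧ ∀ (N₁ N₂ r₀ : ℕ) (D Q : ℝ), 1 ≤ N₁ → N₁ ≤ N₂ → 1 ≤ D → D ≤ 2 * Q →
    ((((Finset.range N₂).filter (fun r => |ctr N₂ r - ctr N₁ r₀| ≤ 12 / N₁ ∧ ∃ n : ℤ × ℤ, Pr n ∧ (n.1 : ℝ) ≤ D ∧ 24 / N₂ ≤ |sp n - ctr N₂ r| ∧
      Q * ((n.1 : ℝ) * |sp n - ctr N₂ r|) ≤ 1 ∧ 1 ≤ 2 * Q * ((n.1 : ℝ) * |sp n - ctr N₂ r|))).card : ℕ) : ℝ) ≤
      C * (1 + log D) * (N₂ / Q + (1 / N₁) * (N₂ / Q) ^ 2) := by
  refine ⟨16, by norm_num, fun N₁ N₂ r₀ D Q hN₁ hN hD hDQ => ?_⟩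
  have hN₂ : 1 ≤ N₂ := hN₁.trans hN
  have a1 : (0 : ℝ) < N₁ := by exact_mod_cast hN₁
  have a2 : (0 : ℝ) < N₂ := by exact_mod_cast hN₂
  have a3 : (N₁ : ℝ) ≤ N₂ := by exact_mod_cast hN
  have hQ : 0 < Q := by linarith
  set R := (Finset.range N₂).filter (fun r => |ctr N₂ r - ctr N₁ r₀| ≤ 12 / N₁ ∧ ∃ n : ℤ × ℤ, Pr n ∧ (n.1 : ℝ) ≤ D ∧ 24 / N₂ ≤ |sp n - ctr N₂ r| ∧
      Q * ((n.1 : ℝ) * |sp n - ctr N₂ r|) ≤ 1 ∧ 1 ≤ 2 * Q * ((n.1 : ℝ) * |sp n - ctr N₂ r|)) with hR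
  have hex : ∀ r, ∃ n : ℤ × ℤ, r ∈ R → |ctr N₂ r - ctr N₁ r₀| ≤ 12 / N₁ ∧ Pr n ∧ (n.1 : ℝ) ≤ D ∧
      24 / N₂ ≤ |sp n - ctr N₂ r| ∧ Q * ((n.1 : ℝ) * |sp n - ctr N₂ r|) ≤ 1 := by
    intro r
    by_cases hr : r ∈ R
    · obtain ⟨-, h1, n, hn1, hn2, hn3, hn4, -⟩ := Finset.mem_filter.1 hr
      exact ⟨n, fun _ => ⟨h1, hn1, hn2, hn3, hn4⟩⟩
    · exact ⟨0, fun h => absurd h hr⟩
  choose φ hφ using hex
  obtain ⟨G, hG⟩ : ∃ G : ℝ, G = N₂ / Q + (1 / N₁) * (N₂ / Q) ^ 2 := ⟨_, rfl⟩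
  have hG0 : 0 ≤ G := by rw [hG]; positivity
  -- one dyadic level
  have hlev : ∀ j : ℕ, ((R.filter (fun r => Nat.log 2 (φ r).1.toNat = j)).card : ℝ) ≤ 8 * G := by
    intro j
    set Rj := R.filter (fun r => Nat.log 2 (φ r).1.toNat = j) with hRj
    obtain ⟨A, hA⟩ : ∃ A : ℝ, A = 2 ^ j := ⟨_, rfl⟩
    have hA1 : 1 ≤ A := by rw [hA]; exact one_le_pow₀ (by norm_num)
    have hA0 : 0 < A := by linarith
    have hAn : ∀ r ∈ Rj, A ≤ (φ r).1 ∧ ((φ r).1 : ℝ) ≤ 2 * A := by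
      intro r hr
      obtain ⟨hr1, hr2⟩ := Finset.mem_filter.1 hr
      have hp := (hφ r hr1).2.1.2
      have hne : (φ r).1.toNat ≠ 0 := by omega
      have b1 := Nat.pow_log_le_self 2 hne
      have b2 := Nat.lt_pow_succ_log_self (b := 2) (by norm_num) (φ r).1.toNat
      rw [hr2] at b1 b2
      have b3 : (((φ r).1.toNat : ℕ) : ℝ) = ((φ r).1 : ℝ) := by
        have : (((φ r).1.toNat : ℕ) : ℤ) = (φ r).1 := Int.toNat_of_nonneg hp.le
        exact_mod_cast congrArg (fun z : ℤ => (z : ℝ)) this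
      have b4 : ((2 ^ j : ℕ) : ℝ) ≤ (((φ r).1.toNat : ℕ) : ℝ) := by exact_mod_cast b1
      have b5 : (((φ r).1.toNat : ℕ) : ℝ) < ((2 ^ (j + 1) : ℕ) : ℝ) := by exact_mod_cast b2
      rw [b3] at b4 b5
      push_cast at b4 b5
      rw [pow_succ] at b5
      rw [hA]
      constructor
      · exact b4
      · linarith
    rcases Rj.eq_empty_or_nonempty with hemp | ⟨r₁, hr₁⟩
    · rw [hemp]; simp only [Finset.card_empty, Nat.cast_zero]; positivity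
    obtain ⟨δ, hδ⟩ : ∃ δ : ℝ, δ = 1 / (Q * A) := ⟨_, rfl⟩
    obtain ⟨lam, hlam⟩ : ∃ lam : ℝ, lam = 12 / (N₁ : ℝ) := ⟨_, rfl⟩
    have hδ0 : 0 < δ := by rw [hδ]; positivity
    have hlam0 : 0 < lam := by rw [hlam]; positivity
    have hdist : ∀ r ∈ Rj, |sp (φ r) - ctr N₂ r| ≤ δ := by
      intro r hr
      have b1 := (hAn r hr).1
      obtain ⟨-, -, -, -, b2⟩ := hφ r (Finset.mem_filter.1 hr).1
      rw [hδ, le_div_iff₀ (by positivity)]
      calc |sp (φ r) - ctr N₂ r| * (Q * A) = Q * (A * |sp (φ r) - ctr N₂ r|) := by ring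
        _ ≤ Q * ((φ r).1 * |sp (φ r) - ctr N₂ r|) := by gcongr
        _ ≤ 1 := b2
    have hδN : 24 / (N₂ : ℝ) ≤ δ :=
      ((hφ r₁ (Finset.mem_filter.1 hr₁).1).2.2.2.1).trans (hdist r₁ hr₁)
    have hδN' : 24 ≤ δ * N₂ := by rwa [div_le_iff₀ a2] at hδN
    have hlamN : 12 ≤ lam * N₂ := by
      rw [hlam, div_mul_eq_mul_div, le_div_iff₀ a1]
      linarith
    have hAQ : 24 * (Q * A) ≤ N₂ := by
      have : δ * N₂ = N₂ / (Q * A) := by rw [hδ]; ring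
      rw [this, le_div_iff₀ (by positivity)] at hδN'
      exact hδN'
    obtain ⟨μ, hμ⟩ : ∃ μ : ℝ, μ = min δ lam := ⟨_, rfl⟩
    have hμ0 : 0 < μ := by rw [hμ]; exact lt_min hδ0 hlam0
    have h1 : (Rj.card : ℝ) ≤ (μ * N₂) * (2 * (lam + δ) * (2 * A) ^ 2 + 1) := by
      refine fib_card70 Rj φ (μ * N₂) _ (by positivity) ?_ ?_
      · intro n hn
        have h2 := ctr_card70 hN₂ (Rj.filter (fun r => φ r = n)) (sp n) δ hδ0.le
          (fun r hr => by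
            obtain ⟨hr1, hr2⟩ := Finset.mem_filter.1 hr
            have h3 := hdist r hr1
            rw [hr2] at h3
            rwa [abs_sub_comm])
        have h3 := ctr_card70 hN₂ (Rj.filter (fun r => φ r = n)) (ctr N₁ r₀) lam hlam0.le
          (fun r hr => by
            obtain ⟨hr1, hr2⟩ := Finset.mem_filter.1 hr
            rw [hlam]
            exact (hφ r (Finset.mem_filter.1 hr1).1).1)
        rcases min_cases δ lam with ⟨hm, -⟩ | ⟨hm, -⟩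
        · rw [hμ, hm]; linarith
        · rw [hμ, hm]; linarith
      · refine pr_card70 _ (ctr N₁ r₀) (lam + δ) (2 * A) (by positivity) (by positivity) ?_
        intro n hn
        obtain ⟨r, hr, rfl⟩ := Finset.mem_image.1 hn
        obtain ⟨b1, b2, -⟩ := hφ r (Finset.mem_filter.1 hr).1
        refine ⟨b2, (hAn r hr).2, ?_⟩
        have h3 : sp (φ r) - ctr N₁ r₀ = (ctr N₂ r - ctr N₁ r₀) + (sp (φ r) - ctr N₂ r) := by ring
        rw [h3]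
        refine (abs_add_le _ _).trans (add_le_add ?_ (hdist r hr))
        rw [hlam]; exact b1
    have h2 : μ * (lam + δ) ≤ 2 * (lam * δ) := by
      rcases min_cases δ lam with ⟨hm, hm'⟩ | ⟨hm, hm'⟩
      · rw [hμ, hm]; nlinarith
      · rw [hμ, hm]; nlinarith
    have h3 : μ ≤ δ := by rw [hμ]; exact min_le_left _ _
    have h4 : (μ * N₂) * (2 * (lam + δ) * (2 * A) ^ 2 + 1) ≤
        N₂ * (16 * A ^ 2 * (lam * δ) + δ) := by
      calc (μ * N₂) * (2 * (lam + δ) * (2 * A) ^ 2 + 1)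
          = N₂ * (8 * A ^ 2 * (μ * (lam + δ)) + μ) := by ring
        _ ≤ N₂ * (8 * A ^ 2 * (2 * (lam * δ)) + δ) := by gcongr
        _ = _ := by ring
    have h5 : N₂ * (16 * A ^ 2 * (lam * δ) + δ) = 192 * (N₂ * A / (N₁ * Q)) + N₂ / (Q * A) := by
      rw [hlam, hδ]; field_simp; ring
    have h6 : N₂ / (Q * A) ≤ N₂ / Q := by
      refine div_le_div_of_nonneg_left a2.le hQ ?_
      nlinarith
    have h7 : 192 * (N₂ * A / (N₁ * Q)) ≤ 8 * ((1 / N₁) * (N₂ / Q) ^ 2) := by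
      have e1 : 192 * (N₂ * A / (N₁ * Q)) = 8 * (1 / N₁ * (N₂ / Q ^ 2 * (24 * (Q * A)))) := by
        field_simp; ring
      have e2 : (1 : ℝ) / N₁ * (N₂ / Q) ^ 2 = 1 / N₁ * (N₂ / Q ^ 2 * N₂) := by
        field_simp
      rw [e1, e2]
      gcongr
    have h8 : 0 ≤ (N₂ : ℝ) / Q := by positivity
    calc (Rj.card : ℝ) ≤ _ := h1
      _ ≤ _ := h4
      _ = 192 * (N₂ * A / (N₁ * Q)) + N₂ / (Q * A) := h5
      _ ≤ 8 * ((1 / N₁) * (N₂ / Q) ^ 2) + N₂ / Q := add_le_add h7 h6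
      _ ≤ 8 * G := by rw [hG]; linarith
  -- all levels
  obtain ⟨J, hJ⟩ : ∃ J : ℕ, J = Nat.log 2 ⌊D⌋₊ := ⟨_, rfl⟩
  have hsub : ∀ r ∈ R, Nat.log 2 (φ r).1.toNat ∈ Finset.range (J + 1) := by
    intro r hr
    rw [Finset.mem_range, Nat.lt_succ_iff, hJ]
    refine Nat.log_mono_right ?_
    have hp := (hφ r hr).2.1.2
    refine Nat.le_floor ?_
    have b3 : (((φ r).1.toNat : ℕ) : ℝ) = ((φ r).1 : ℝ) := by
      have : (((φ r).1.toNat : ℕ) : ℤ) = (φ r).1 := Int.toNat_of_nonneg hp.le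
      exact_mod_cast congrArg (fun z : ℤ => (z : ℝ)) this
    rw [b3]
    exact (hφ r hr).2.2.1
  have hcard : (R.card : ℝ) = ∑ j ∈ Finset.range (J + 1),
      ((R.filter (fun r => Nat.log 2 (φ r).1.toNat = j)).card : ℝ) := by
    have := Finset.card_eq_sum_card_fiberwise (f := fun r => Nat.log 2 (φ r).1.toNat)
      (s := R) (t := Finset.range (J + 1)) (fun r hr => hsub r hr)
    rw [this]
    push_cast
    rfl
  have hJD : (J : ℝ) ≤ 2 * log D := by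
    have hfl : ⌊D⌋₊ ≠ 0 := by
      have : 1 ≤ ⌊D⌋₊ := Nat.le_floor (by exact_mod_cast hD)
      omega
    have b1 : 2 ^ J ≤ ⌊D⌋₊ := by rw [hJ]; exact Nat.pow_log_le_self 2 hfl
    have b2 : ((2 : ℝ)) ^ J ≤ D := by
      have : ((2 ^ J : ℕ) : ℝ) ≤ (⌊D⌋₊ : ℝ) := by exact_mod_cast b1
      push_cast at this
      exact this.trans (Nat.floor_le (by linarith))
    have b3 := Real.log_le_log (by positivity) b2
    rw [Real.log_pow] at b3
    have b4 : (1 : ℝ) / 2 < log 2 := by linarith [Real.log_two_gt_d9]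
    have b5 : (0 : ℝ) ≤ J := Nat.cast_nonneg _
    nlinarith
  have hlogD : 0 ≤ log D := Real.log_nonneg hD
  calc (R.card : ℝ) = _ := hcard
    _ ≤ ∑ _j ∈ Finset.range (J + 1), 8 * G := Finset.sum_le_sum fun j _ => hlev j
    _ = (J + 1) * (8 * G) := by rw [Finset.sum_const, Finset.card_range, nsmul_eq_mul]; push_cast; ring
    _ ≤ (2 * (1 + log D)) * (8 * G) := by
        refine mul_le_mul_of_nonneg_right ?_ (by positivity)
        linarith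
    _ = 16 * (1 + log D) * (N₂ / Q + (1 / N₁) * (N₂ / Q) ^ 2) := by rw [hG]; ring

end Pool.Agent.Helper60.RT
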